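import Pool.Agent.Helper99.EXC.GoalsD

/-!
# Packet NMA of the project EXC: the near martingale

Statement and proof sketch: `Pool/Agent/Helper99/EXC/GoalsD.lean`.
-/

open Finset

namespace Pool.Agent.Helper89.EXC

open Pool.Agent.Helper99.ERW Pool.Agent.Helper99.EXC

lemma V_nonneg {a : ℝ} {p : Site 2 → ℕ → ℝ} {V : Site 2 → ℝ} {Tl : Site 2 → ℕ → ℝ}
    {Si : Site 2 → ℝ} (hc : Cook a p V Tl Si) (z : Site 2) : 0 ≤ V z := by
  have := hc.tv z 0
  simpa [Vm] using this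

lemma card_Bx (b k : ℕ) : ((Bx b k).card : ℝ) ≤ ((2 * b + 1) * 2 ^ k) ^ 2 := by
  have h1 : (Bx b k).card = (2 * (b * 2 ^ k) + 1) ^ 2 := by
    unfold Bx Pool.Agent.Helper99.ERW.box
    rw [Fintype.card_piFinset]
    simp only [Int.card_Icc, Finset.prod_const, Finset.card_univ, Fintype.card_fin]
    congr 1
    omega
  rw [h1]
  push_cast
  have h2 : (1 : ℝ) ≤ 2 ^ k := one_le_pow₀ (by norm_num)
  have hb : (0 : ℝ) ≤ b := Nat.cast_nonneg b
  refine pow_le_pow_left₀ (by positivity) ?_ 2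
  nlinarith

lemma aa_sq_le {V : Site 2 → ℝ} (b k : ℕ) :
    aa V b k ^ 2 ≤ (4 * b + 2) ^ 2 * bb V b k := by
  have h1 := Finset.sum_mul_sq_le_sq_mul_sq (Bx b (k + 1)) (fun _ => (1 : ℝ)) V
  simp only [one_mul, one_pow, Finset.sum_const, nsmul_eq_mul, mul_one] at h1
  have h2 := card_Bx b (k + 1)
  have h3 : 0 ≤ ∑ z ∈ Bx b (k + 1), V z ^ 2 := Finset.sum_nonneg fun _ _ => sq_nonneg _
  have h4 : (∑ z ∈ Bx b (k + 1), V z) ^ 2 ≤ ((2 * b + 1) * 2 ^ (k + 1)) ^ 2 *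
      ∑ z ∈ Bx b (k + 1), V z ^ 2 := h1.trans (mul_le_mul_of_nonneg_right h2 h3)
  have h5 : (0 : ℝ) < 4 ^ k := by positivity
  have h6 : ((2 * (b : ℝ) + 1) * 2 ^ (k + 1)) ^ 2 = (4 * b + 2) ^ 2 * 4 ^ k := by
    have : (4 : ℝ) ^ k = (2 ^ k) ^ 2 := by
      rw [← pow_mul, mul_comm, pow_mul]
      norm_num
    rw [this, pow_succ]
    ring
  rw [h6] at h4
  unfold aa bb
  rw [div_pow, div_le_iff₀ (by positivity)]
  have h7 : (4 * (b : ℝ) + 2) ^ 2 * ((∑ z ∈ Bx b (k + 1), V z ^ 2) / 4 ^ k) * (4 ^ k) ^ 2 =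
      (4 * b + 2) ^ 2 * 4 ^ k * ∑ z ∈ Bx b (k + 1), V z ^ 2 := by
    field_simp
  rw [h7]
  exact h4

lemma bb_nonneg (V : Site 2 → ℝ) (b k : ℕ) : 0 ≤ bb V b k := by
  unfold bb
  exact div_nonneg (Finset.sum_nonneg fun _ _ => sq_nonneg _) (by positivity)

lemma one_le_qq (V : Site 2 → ℝ) (b k s : ℕ) : 1 ≤ qq V b k s := by
  unfold qq
  nlinarith [bb_nonneg V b k, sq_nonneg (tt V b k s)]

/-- `aa ≤ C' qq`. -/
lemma aa_le_qq (V : Site 2 → ℝ) (b k s : ℕ) : aa V b k ≤ (4 * b + 2) ^ 2 * qq V b k s := by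
  have h1 := aa_sq_le (V := V) b k
  have h2 := bb_nonneg V b k
  have h3 : 1 + bb V b k ≤ qq V b k s := by
    unfold qq
    nlinarith [sq_nonneg (tt V b k s)]
  have hb : (0 : ℝ) ≤ b := Nat.cast_nonneg b
  have h4 : (1 : ℝ) ≤ (4 * b + 2) ^ 2 := by nlinarith
  have h5 : (4 * (b : ℝ) + 2) ^ 2 * (1 + bb V b k) ≤ (4 * b + 2) ^ 2 * qq V b k s :=
    mul_le_mul_of_nonneg_left h3 (by positivity)
  nlinarith [sq_nonneg (aa V b k - 1), sq_nonneg (aa V b k)]

/-- `aa² ≤ C' qq`. -/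
lemma aa_sq_le_qq (V : Site 2 → ℝ) (b k s : ℕ) :
    aa V b k ^ 2 ≤ (4 * b + 2) ^ 2 * qq V b k s := by
  have h1 := aa_sq_le (V := V) b k
  have h3 : bb V b k ≤ qq V b k s := by
    unfold qq
    nlinarith [sq_nonneg (tt V b k s)]
  exact h1.trans (mul_le_mul_of_nonneg_left h3 (by positivity))

/-- PACKET NMA. -/
theorem NMA (_hLTM : LTM_stmt) (hYBD : YBD_stmt) (hBIL : BIL_stmt) (hNEA : NEA_stmt)
    (hCUR : CUR_stmt) : NMA_stmt := by
  intro C b
  obtain ⟨C1, hC1, H1⟩ := hBIL C b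
  obtain ⟨C2, hC2, H2⟩ := hNEA C b
  obtain ⟨C3, hC3, H3⟩ := hCUR C b
  refine ⟨C1 * (4 * b + 2) ^ 2 + C2 + C3, by positivity, ?_⟩
  intro a p V Tl Si φ Φ κ k1 hc hs k s hk1 hks J N s0
  have hV := V_nonneg hc
  have hE : 0 ≤ Ex p (Bx b (s + 1)) N (one (Bx b (s + 1))) s0 := by
    refine Ex_nonneg hc.p0 hc.p1 _ N (fun t => ?_) s0
    unfold one
    split_ifs <;> norm_num
  have haa : 0 ≤ aa V b k := by
    unfold aa
    exact div_nonneg (Finset.sum_nonneg fun z _ => hV z) (by positivity)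
  have hee : 0 ≤ ee Tl b J k := by
    unfold ee
    exact div_nonneg (Finset.sum_nonneg fun z _ => hc.tl0 z J) (by positivity)
  have hww : 0 ≤ ww V b s := by
    unfold ww
    refine Finset.sum_nonneg fun z _ => div_nonneg (hV z) (by positivity)
  have hqq : 1 ≤ qq V b k s := one_le_qq V b k s
  have hks' : (k : ℝ) ≤ s := by exact_mod_cast hks
  have hY0 : 0 ≤ κ * ((s : ℝ) - k) + C + C * ww V b s := by
    have := hs.kpos
    have := hs.cone
    have h3 : 0 ≤ κ * ((s : ℝ) - k) := mul_nonneg (by linarith) (by linarith)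
    have h4 : 0 ≤ C * ww V b s := mul_nonneg (by linarith) hww
    linarith
  have hJ : (0 : ℝ) ≤ J := Nat.cast_nonneg J
  have hk0 : (0 : ℝ) ≤ k := Nat.cast_nonneg k
  by_cases hin : s0.1 ∈ Bx b (s + 1)
  · have B1 := H1 a p V Tl Si φ Φ κ k1 hc hs k s hk1 hks N s0 hin
    have B2 := H2 a p V Tl Si φ Φ κ k1 hc hs k s hk1 hks N s0 hin
    have B3 := H3 a p V Tl Si φ Φ κ k1 hc hs k s hk1 hks J N s0 hin
    have B4 := hYBD a p V Tl Si φ Φ κ C b k1 hc hs k s hk1 hks N s0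
    have hsplit : Rw p (Bx b (s + 1)) N
        (fun s => La a (Φ k) s.1 * (cL a p Φ b k (inc s) - ci Φ Si b k)) s0 =
        Rw p (Bx b (s + 1)) N
          (fun s => La a (Φ k) s.1 * (cL a p Φ b k (inc s) - cL a p Φ b k s0.2)) s0 -
        (ci Φ Si b k - cL a p Φ b k s0.2) *
          Rw p (Bx b (s + 1)) N (fun s => La a (Φ k) s.1) s0 := by
      rw [← Rw_smul, ← Rw_sub]
      refine Rw_congr p _ N (fun t _ => ?_) s0
      ring
    rw [hsplit]
    set X := κ * k * (Ex p (Bx b (s + 1)) N (fun s => cL a p Φ b k s.2) s0 -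
      cL a p Φ b k s0.2) with hX
    set Y := Rw p (Bx b (s + 1)) N
      (fun s => La a (Φ k) s.1 * (cL a p Φ b k (inc s) - cL a p Φ b k s0.2)) s0 with hY
    set Z := Rw p (Bx b (s + 1)) N (fun s => hk Φ k s.1 * DS a p s0.2 s s.1) s0 with hZ
    set T := Rw p (Bx b (s + 1)) N (fun s => dS a p s * ∑ z ∈ Bx b k,
      hk Φ k z * DS a p s0.2 s z * (Df φ (s.1 - z) - Df (Φ k) s.1)) s0 with hT
    set M := Rw p (Bx b (s + 1)) N (fun s => La a (Φ k) s.1) s0 with hM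
    set c0 := ci Φ Si b k - cL a p Φ b k s0.2 with hc0
    set E1 := Ex p (Bx b (s + 1)) N (one (Bx b (s + 1))) s0 with hE1
    have e1 : X + (Y - c0 * M) = (X + Y - Z - T) + T + (Z - c0 * M) := by ring
    rw [e1]
    have t1 := abs_add_le ((X + Y - Z - T) + T) (Z - c0 * M)
    have t2 := abs_add_le (X + Y - Z - T) T
    have h5 := aa_le_qq V b k s
    have h6 : ee Tl b J k * M ≤ ee Tl b J k * (κ * ((s : ℝ) - k) + C + C * ww V b s) :=
      mul_le_mul_of_nonneg_left B4 hee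
    have h7 : C1 * aa V b k ≤ C1 * ((4 * b + 2) ^ 2 * qq V b k s) :=
      mul_le_mul_of_nonneg_left h5 hC1
    have h8 : C3 * (ee Tl b J k * M) ≤
        C3 * (ee Tl b J k * (κ * ((s : ℝ) - k) + C + C * ww V b s)) :=
      mul_le_mul_of_nonneg_left h6 hC3
    set W := ee Tl b J k * (κ * ((s : ℝ) - k) + C + C * ww V b s) with hW
    have hW0 : 0 ≤ W := mul_nonneg hee hY0
    set q := qq V b k s with hq
    set A := aa V b k with hA
    set K := (4 * (b : ℝ) + 2) ^ 2 with hK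
    have hK1 : 1 ≤ K := by
      have hb : (0 : ℝ) ≤ b := Nat.cast_nonneg b
      rw [hK]; nlinarith only [hb]
    have hq0 : 0 ≤ q := zero_le_one.trans hqq
    have hK0 : 0 ≤ K := zero_le_one.trans hK1
    have B1' : |X + Y - Z - T| ≤ C1 * A + C1 * (((k : ℝ) + 1) * A * E1) := by
      refine B1.trans (le_of_eq ?_); ring
    have B3' : |Z - c0 * M| ≤ C3 * ((1 + J) * q) + C3 * (ee Tl b J k * M) +
        C3 * (((k : ℝ) + 1) * A * E1) := by
      refine B3.trans (le_of_eq ?_); ring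
    clear_value X Y Z T M c0 E1 W q A K
    have h9 : 0 ≤ ((k : ℝ) + 1) * A * E1 := by clear B1 B3 H1 H2 H3; positivity
    have h10 : C1 * (((k : ℝ) + 1) * A * E1) ≤ C1 * K * (((k : ℝ) + 1) * A * E1) := by
      exact mul_le_mul_of_nonneg_right (le_mul_of_one_le_right hC1 hK1) h9
    have h11 : 0 ≤ C2 * (((k : ℝ) + 1) * A * E1) := mul_nonneg hC2 h9
    have h12 : 0 ≤ C1 * K * (J * q) := by clear B1 B3 H1 H2 H3; positivity
    have h13 : 0 ≤ C2 * (J * q) := by clear B1 B3 H1 H2 H3; positivity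
    have h14 : 0 ≤ C1 * K * W := by clear B1 B3 H1 H2 H3; positivity
    have h15 : 0 ≤ C2 * W := by clear B1 B3 H1 H2 H3; positivity
    have goal_eq : (C1 * K + C2 + C3) * ((1 + J) * q + W) + (C1 * K + C2 + C3) * (k + 1) * A * E1 =
        C1 * (K * q) + C1 * K * (J * q) + C1 * K * W + C2 * q + C2 * (J * q) + C2 * W +
        C3 * ((1 + J) * q) + C3 * W + C1 * K * (((k : ℝ) + 1) * A * E1) +
        C2 * (((k : ℝ) + 1) * A * E1) + C3 * (((k : ℝ) + 1) * A * E1) := by ring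
    rw [goal_eq]
    linarith only [t1, t2, B1', B2, B3', h7, h8, h10, h11, h12, h13, h14, h15]
  · rw [Ex_out p _ N _ hin, Rw_out p _ N _ hin]
    simp only [sub_self, mul_zero, add_zero, abs_zero]
    positivity

end Pool.Agent.Helper89.EXC
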