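import Pool.Agent.Helper99.EXC.GoalsS

/-!
# Packet SC of the project EXC

Statement and proof sketch: `Pool/Agent/Helper99/EXC/GoalsS.lean`.
-/

open Finset

namespace Pool.Agent.Helper89.EXC

open Pool.Agent.Helper99.ERW Pool.Agent.Helper99.EXC

lemma nm_nonneg (x : Site 2) : 0 ≤ nm x := (abs_nonneg _).trans (le_max_left _ _)

lemma nm_sub_le (x z : Site 2) : nm (x - z) ≤ nm x + nm z := by
  unfold nm
  simp only [Pi.sub_apply, Int.cast_sub]
  refine max_le ?_ ?_
  · have h1 := abs_sub (x 0 : ℝ) (z 0 : ℝ)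
    have h2 := le_max_left |(x 0 : ℝ)| |(x 1 : ℝ)|
    have h3 := le_max_left |(z 0 : ℝ)| |(z 1 : ℝ)|
    linarith
  · have h1 := abs_sub (x 1 : ℝ) (z 1 : ℝ)
    have h2 := le_max_right |(x 0 : ℝ)| |(x 1 : ℝ)|
    have h3 := le_max_right |(z 0 : ℝ)| |(z 1 : ℝ)|
    linarith

lemma nm_neg (x : Site 2) : nm (-x) = nm x := by
  unfold nm
  simp

lemma nm_le_sub (x z : Site 2) : nm x ≤ nm (x - z) + nm z := by
  have h := nm_sub_le (x - z) (-z)
  rw [nm_neg, sub_neg_eq_add, sub_add_cancel] at h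
  exact h

lemma mem_Bx {b k : ℕ} {x : Site 2} : x ∈ Bx b k ↔ nm x ≤ b * 2 ^ k := by
  unfold Bx nm
  rw [mem_box, max_le_iff]
  constructor
  · intro h
    have h0 := h 0
    have h1 := h 1
    constructor
    · have : ((|x 0| : ℤ) : ℝ) ≤ ((b * 2 ^ k : ℕ) : ℤ) := by exact_mod_cast h0
      push_cast at this
      exact this
    · have : ((|x 1| : ℤ) : ℝ) ≤ ((b * 2 ^ k : ℕ) : ℤ) := by exact_mod_cast h1
      push_cast at this
      exact this
  · rintro ⟨h0, h1⟩ l
    have h0' : ((|x 0| : ℤ) : ℝ) ≤ ((b * 2 ^ k : ℕ) : ℤ) := by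
      push_cast
      exact h0
    have h1' : ((|x 1| : ℤ) : ℝ) ≤ ((b * 2 ^ k : ℕ) : ℤ) := by
      push_cast
      exact h1
    fin_cases l
    · exact_mod_cast h0'
    · exact_mod_cast h1'

lemma logb_le_of {x y : ℝ} (hx : 0 < x) (h : x ≤ 2 * y) : Real.logb 2 x ≤ Real.logb 2 y + 1 := by
  have hy : 0 < y := by linarith
  have h1 := Real.logb_le_logb_of_le (by norm_num : (1 : ℝ) < 2) hx h
  rw [Real.logb_mul (by norm_num) hy.ne', Real.logb_self_eq_one (by norm_num)] at h1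
  linarith

lemma logb_mul_two_pow {x : ℝ} (hx : 0 < x) (k : ℕ) :
    Real.logb 2 (x * 2 ^ k) = Real.logb 2 x + k := by
  rw [Real.logb_mul hx.ne' (by positivity), Real.logb_pow, Real.logb_self_eq_one (by norm_num),
    mul_one]

/-- Choice of `b0`: the potential is large outside the boxes. -/
lemma exists_b0 {a : ℝ} {φ : Site 2 → ℝ} {κ C0 : ℝ} (h : Ker a φ κ C0) (A : ℝ) :
    ∃ b0 : ℕ, 1 ≤ b0 ∧ ∀ b, b0 ≤ b → ∀ (k : ℕ) (x : Site 2), x ∉ Bx b k → κ * k + A ≤ φ x := by
  obtain ⟨b1, hb1⟩ := exists_nat_ge ((2 : ℝ) ^ ((C0 + A) / κ))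
  refine ⟨max 1 b1, le_max_left _ _, ?_⟩
  intro b hb k x hx
  have hb1' : 1 ≤ b := (le_max_left _ _).trans hb
  have hb2 : (b1 : ℝ) ≤ b := by exact_mod_cast (le_max_right _ _).trans hb
  have hbpos : (0 : ℝ) < b := by exact_mod_cast hb1'
  rw [mem_Bx] at hx
  push Not at hx
  have h1 : Real.logb 2 ((b : ℝ) * 2 ^ k) ≤ Real.logb 2 (1 + nm x) :=
    Real.logb_le_logb_of_le (by norm_num) (by positivity) (by linarith)
  rw [logb_mul_two_pow hbpos] at h1
  have h2 : (C0 + A) / κ ≤ Real.logb 2 b := by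
    rw [Real.le_logb_iff_rpow_le (by norm_num) hbpos]
    linarith
  have h3 : C0 + A ≤ κ * Real.logb 2 b := by
    rw [div_le_iff₀ h.kpos] at h2
    linarith
  have h4 := (abs_le.1 (h.log x)).1
  have h5 : κ * (Real.logb 2 b + k) ≤ κ * Real.logb 2 (1 + nm x) :=
    mul_le_mul_of_nonneg_left h1 h.kpos.le
  linarith

/-- PACKET SC. -/
theorem SC (hFFP : FFP_stmt) : SC_stmt := by
  obtain ⟨F1, F2, F3, F4, F5, F6, F7, F8, F9, F10, F11, F12⟩ := hFFP
  intro a φ κ C0 hK
  obtain ⟨b0, hb0, hb0'⟩ := exists_b0 hK 1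
  refine ⟨b0, ?_⟩
  intro b hb
  have hbpos : (1 : ℝ) ≤ b := by exact_mod_cast hb0.trans hb
  have hκ := hK.kpos
  have hC0 := hK.cone
  have hlog4b : 0 ≤ Real.logb 2 (4 * b) := Real.logb_nonneg (by norm_num) (by linarith)
  have hO : ∀ (k : ℕ), ∀ z ∈ Bx b k, ∀ x, x ∉ Bx b (k + 1) →
      |φ (x - z) - Phi κ φ k x| ≤ κ + 2 * C0 := by
    intro k z hz x hx
    have hx' : x ∉ Bx b k := by
      intro h
      apply hx
      rw [mem_Bx] at h ⊢
      refine h.trans ?_
      rw [pow_succ]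
      have : (0 : ℝ) ≤ b * 2 ^ k := by positivity
      linarith
    have h1 := hb0' b hb k x hx'
    have h2 : Phi κ φ k x = φ x := by
      unfold Phi
      rw [F3 _ (by linarith)]
      ring
    rw [h2]
    rw [mem_Bx] at hz hx
    push Not at hx
    rw [pow_succ] at hx
    have n1 := nm_sub_le x z
    have n2 := nm_le_sub x z
    have n3 := nm_nonneg x
    have n4 := nm_nonneg (x - z)
    have l1 : Real.logb 2 (1 + nm (x - z)) ≤ Real.logb 2 (1 + nm x) + 1 :=
      logb_le_of (by linarith) (by linarith)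
    have l2 : Real.logb 2 (1 + nm x) ≤ Real.logb 2 (1 + nm (x - z)) + 1 :=
      logb_le_of (by linarith) (by linarith)
    have m1 := mul_le_mul_of_nonneg_left l1 hκ.le
    have m2 := mul_le_mul_of_nonneg_left l2 hκ.le
    have g1 := abs_le.1 (hK.log x)
    have g2 := abs_le.1 (hK.log (x - z))
    rw [abs_le]
    constructor <;> linarith [g1.1, g1.2, g2.1, g2.2]
  refine ⟨2 * κ + κ * Real.logb 2 (4 * b) + 2 * C0 + 1, 0, ?_, ?_⟩
  · intro k _ z hz x
    have hκℓ : 0 ≤ κ * Real.logb 2 (4 * b) := mul_nonneg hκ.le hlog4b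
    have hk0 : (0 : ℝ) ≤ k := Nat.cast_nonneg k
    by_cases hx : x ∈ Bx b (k + 1)
    · have key : ∀ y : Site 2, nm y ≤ 3 * (b * 2 ^ k) →
          -C0 ≤ φ y ∧ φ y ≤ κ * k + κ * Real.logb 2 (4 * b) + C0 := by
        intro y hy
        have g := abs_le.1 (hK.log y)
        have hn := nm_nonneg y
        have h0 : 0 ≤ Real.logb 2 (1 + nm y) := Real.logb_nonneg (by norm_num) (by linarith)
        have h2k : (1 : ℝ) ≤ 2 ^ k := one_le_pow₀ (by norm_num)
        have h1 : Real.logb 2 (1 + nm y) ≤ Real.logb 2 (4 * b * 2 ^ k) := by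
          refine Real.logb_le_logb_of_le (by norm_num) (by linarith) ?_
          nlinarith
        rw [logb_mul_two_pow (by linarith)] at h1
        have h2 := mul_le_mul_of_nonneg_left h1 hκ.le
        have h3 := mul_nonneg hκ.le h0
        constructor <;> linarith [g.1, g.2]
      rw [mem_Bx] at hz hx
      rw [pow_succ] at hx
      have n1 := nm_sub_le x z
      have hb2 : (0 : ℝ) ≤ b * 2 ^ k := by positivity
      obtain ⟨a1, a2⟩ := key (x - z) (by linarith)
      obtain ⟨c1, c2⟩ := key x (by linarith)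
      have hp1 : κ * k ≤ Phi κ φ k x := by
        unfold Phi
        linarith [F2 (φ x - κ * k)]
      have hp2 : Phi κ φ k x ≤ κ * k + (κ * k + κ * Real.logb 2 (4 * b) + C0 + 1) := by
        unfold Phi
        have h1 := F5 (φ x - κ * k)
        have h2 : |φ x - κ * k| ≤ κ * k + κ * Real.logb 2 (4 * b) + C0 := by
          have : 0 ≤ κ * (k : ℝ) := mul_nonneg hκ.le hk0
          rw [abs_le]
          constructor <;> linarith
        linarith
      have hκk : 0 ≤ κ * (k : ℝ) := mul_nonneg hκ.le hk0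
      have t1 : 0 ≤ κ * Real.logb 2 (4 * b) * k := mul_nonneg hκℓ hk0
      have t2 : 0 ≤ C0 * (k : ℝ) := mul_nonneg (by linarith) hk0
      rw [abs_le]
      constructor <;> nlinarith
    · refine (hO k z hz x hx).trans ?_
      have hκk : 0 ≤ κ * (k : ℝ) := mul_nonneg hκ.le hk0
      have t1 : 0 ≤ κ * Real.logb 2 (4 * b) * k := mul_nonneg hκℓ hk0
      have t2 : 0 ≤ C0 * (k : ℝ) := mul_nonneg (by linarith) hk0
      nlinarith
  · intro k _ z hz x hx
    have hκℓ : 0 ≤ κ * Real.logb 2 (4 * b) := mul_nonneg hκ.le hlog4b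
    refine (hO k z hz x hx).trans ?_
    linarith

end Pool.Agent.Helper89.EXC
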